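import Pool.Agent.Lib.Helper13.PstGraph

/-!
MP_f96bdb_co: connected graphs with perfect state transfer, arbitrarily large diameter and only
cubically many edges.
-/

set_option autoImplicit false

namespace Pool.Agent.Results.MP_f96bdb_co.CubicTransfer

open Matrix

/-- The adjacency matrix of a graph, with complex entries. -/
noncomputable def adjacency {V : Type} (G : SimpleGraph V) : Matrix V V ℂ :=
  open Classical in Matrix.of fun x y => if G.Adj x y then 1 else 0

/-- The transition matrix `U(t) = exp(i t A)` of the continuous quantum walk on `G`. -/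
noncomputable def transition {V : Type} [Fintype V] [DecidableEq V] (G : SimpleGraph V) (t : ℝ) :
    Matrix V V ℂ :=
  NormedSpace.exp ((Complex.I * (t : ℂ)) • adjacency G)

/-- The characteristic vector of the vertex `u`. -/
def unit {V : Type} [DecidableEq V] (u : V) : V → ℂ := fun x => if x = u then 1 else 0

/-- `U(t) e_u = γ e_v`. -/
def TransfersTo {V : Type} [Fintype V] [DecidableEq V] (G : SimpleGraph V) (t : ℝ) (u : V)
    (γ : ℂ) (v : V) : Prop :=
  transition G t *ᵥ unit u = γ • unit v

/-- For every `n ≥ 1` there is a finite connected graph of diameter at least `n` with at most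
`72 n ^ 3` edges such that for every vertex `u` there is a vertex `v ≠ u` with
`U(π / 2) e_u = i e_v`. -/
theorem result (n : ℕ) (hn : 1 ≤ n) :
    ∃ (V : Type) (_ : Fintype V) (_ : DecidableEq V) (G : SimpleGraph V),
      G.Connected ∧ n ≤ G.diam ∧ Nat.card G.edgeSet ≤ 72 * n ^ 3 ∧
      ∀ u : V, ∃ v : V, v ≠ u ∧ TransfersTo G (Real.pi / 2) u Complex.I v := by
  classical
  refine ⟨PstGraph.Wn n × Bool, inferInstance, inferInstance,
    SimpleGraph.boxProd (PstGraph.Hn n) (⊤ : SimpleGraph Bool),
    (PstGraph.Hn_connected hn).boxProd SimpleGraph.connected_top, PstGraph.diam_ge hn, ?_, ?_⟩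
  · rw [Nat.card_eq_fintype_card, ← SimpleGraph.edgeFinset_card]
    exact PstGraph.edges_le n hn
  · rintro ⟨w, s⟩
    refine ⟨(w, !s), by simp, ?_⟩
    have hA : adjacency (SimpleGraph.boxProd (PstGraph.Hn n) (⊤ : SimpleGraph Bool))
        = (SimpleGraph.boxProd (PstGraph.Hn n) (⊤ : SimpleGraph Bool)).adjMatrix ℂ := by
      ext x y
      simp [adjacency, SimpleGraph.adjMatrix_apply]
    unfold TransfersTo transition
    rw [hA, PstGraph.exp_boxProd (PstGraph.Hn n) (PstGraph.eigen_Hn n)]
    ext ⟨w', s'⟩
    simp only [Matrix.mulVec, dotProduct, Matrix.of_apply, unit, Pi.smul_apply, smul_eq_mul]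
    rw [Finset.sum_eq_single (w, s)]
    · by_cases hw : w' = w
      · subst hw
        cases s <;> cases s' <;> simp
      · simp [hw]
    · rintro ⟨w₂, s₂⟩ _ hne
      rw [if_neg hne, mul_zero]
    · intro h
      exact absurd (Finset.mem_univ _) h

end Pool.Agent.Results.MP_f96bdb_co.CubicTransfer
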